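import Pool.Agent.Helper79.GS.St6

set_option autoImplicit false

namespace Pool.Agent.Helper39.GS

open Pool.Agent.Helper79.GS Pool.Agent.Helper19.SK Pool.Agent.Helper73.DC Finset

private lemma dgt_inj' : ∀ x y : Option Bool, dgt x = dgt y → x = y := by decide

private lemma colN_bn (c : Bool) : colN (bn c) = dgt (some c) := by cases c <;> simp [colN, bn, dgt]

private lemma bn_not (c : Bool) : 1 - bn c = bn (!c) := by cases c <;> simp [bn]

theorem hPLY (hCOD : StCOD) (hTCH : StTCH) : StPLY := by
  classical
  intro N n hN c P Q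
  obtain ⟨hadj, htch⟩ := hTCH N n hN
  obtain ⟨hdig, hinj, honto, hchar⟩ := hCOD n
  have hpw : pw N 3 (n * n) = 3 ^ (n * n) := by
    unfold pw
    omega
  have hd : ∀ (P : Pos (Fin n × Fin n)) (i : Fin (n * n)),
      dg 3 (codeB P) i.val = dgt (P (finProdFinEquiv.symm i)) := fun P => (hdig P).2
  have hclr : ∀ (c : Bool) (P Q : Pos (Fin n × Fin n)),
      clrN N n (bn c) (codeB P) (codeB Q) ↔ Q = clear (grid n) c P := by
    intro c P Q
    have hlib : ∀ i : Fin (n * n), tchN N n (codeB P) i.val 0 ↔ Lib (grid n) P (finProdFinEquiv.symm i) := by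
      intro i
      rw [htch P i 0]
      unfold Lib
      constructor
      · rintro ⟨w, u, h1, h2, h3⟩
        exact ⟨w, u, h1, h2, dgt_inj' _ _ h3⟩
      · rintro ⟨w, u, h1, h2, h3⟩
        exact ⟨w, u, h1, h2, by rw [h3]; rfl⟩
    have key : ∀ i : Fin (n * n), (dg 3 (codeB Q) i.val =
        if (dg 3 (codeB P) i.val = colN (bn c) ∧ ¬ tchN N n (codeB P) i.val 0) then 0
        else dg 3 (codeB P) i.val) ↔
        Q (finProdFinEquiv.symm i) = clear (grid n) c P (finProdFinEquiv.symm i) := by
      intro i
      unfold clear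
      by_cases hA : P (finProdFinEquiv.symm i) = some c ∧ ¬ Lib (grid n) P (finProdFinEquiv.symm i)
      · have hA' : dg 3 (codeB P) i.val = colN (bn c) ∧ ¬ tchN N n (codeB P) i.val 0 :=
          ⟨by rw [hd, colN_bn, hA.1], by rw [hlib]; exact hA.2⟩
        rw [if_pos hA', if_pos hA, hd]
        exact ⟨fun h => dgt_inj' _ _ h, fun h => by rw [h]; rfl⟩
      · have hA' : ¬ (dg 3 (codeB P) i.val = colN (bn c) ∧ ¬ tchN N n (codeB P) i.val 0) := by
          rintro ⟨h1, h2⟩
          apply hA
          rw [hd, colN_bn] at h1
          exact ⟨dgt_inj' _ _ h1, by rwa [hlib] at h2⟩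
        rw [if_neg hA', if_neg hA, hd, hd]
        exact ⟨fun h => dgt_inj' _ _ h, fun h => by rw [h]⟩
    constructor
    · intro h
      funext v
      have hv := (key (finProdFinEquiv v)).1 (by
        convert h (finProdFinEquiv v).val (finProdFinEquiv v).isLt using 1)
      simpa using hv
    · intro h v hv
      have h2 := (key ⟨v, hv⟩).2 (by rw [h])
      convert h2 using 1
  have hplay : ∀ (P Q : Pos (Fin n × Fin n)) (e : Fin (n * n)),
      playN N n (bn c) (codeB P) e.val (codeB Q) ↔ Q = play (grid n) P c (finProdFinEquiv.symm e) := by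
    intro P Q e
    constructor
    · rintro ⟨u1, hu1, u2, hu2, h1, h2, h3⟩
      rw [hpw] at hu1 hu2
      obtain ⟨P1, rfl⟩ := honto u1 hu1
      obtain ⟨P2, rfl⟩ := honto u2 hu2
      rw [bn_not] at h2
      have e2 := (hclr (!c) P1 P2).1 h2
      have e3 := (hclr c P2 Q).1 h3
      have e1 : P1 = put P (finProdFinEquiv.symm e) (some c) := by
        funext v
        have hv := h1 (finProdFinEquiv v).val (finProdFinEquiv v).isLt
        rw [hd P1 (finProdFinEquiv v), hd P (finProdFinEquiv v)] at hv
        unfold put
        by_cases hve : v = finProdFinEquiv.symm e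
        · have hve' : (finProdFinEquiv v).val = e.val := by rw [hve, Equiv.apply_symm_apply]
          rw [if_pos hve', colN_bn] at hv
          rw [if_pos hve]
          have := dgt_inj' _ _ hv
          simpa using this
        · have hve' : ¬ (finProdFinEquiv v).val = e.val := by
            intro h
            apply hve
            rw [← Fin.ext h]
            simp
          rw [if_neg hve'] at hv
          rw [if_neg hve]
          have := dgt_inj' _ _ hv
          simpa using this
      rw [e3, e2, e1]
      rfl
    · intro h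
      refine ⟨codeB (put P (finProdFinEquiv.symm e) (some c)), by rw [hpw]; exact (hdig _).1,
        codeB (clear (grid n) (!c) (put P (finProdFinEquiv.symm e) (some c))), by rw [hpw]; exact (hdig _).1,
        ?_, ?_, ?_⟩
      · intro v hv
        have h1 := hd (put P (finProdFinEquiv.symm e) (some c)) ⟨v, hv⟩
        have h2 := hd P ⟨v, hv⟩
        simp only at h1 h2
        rw [h1, h2]
        unfold put
        by_cases hve : v = e.val
        · have hve' : finProdFinEquiv.symm (⟨v, hv⟩ : Fin (n * n)) = finProdFinEquiv.symm e := by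
            congr 1
            exact Fin.ext hve
          rw [if_pos hve, if_pos hve', colN_bn]
        · have hve' : ¬ finProdFinEquiv.symm (⟨v, hv⟩ : Fin (n * n)) = finProdFinEquiv.symm e := by
            intro h
            apply hve
            have := finProdFinEquiv.symm.injective h
            exact congrArg Fin.val this
          rw [if_neg hve, if_neg hve']
      · rw [bn_not]
        exact (hclr (!c) _ _).2 rfl
      · exact (hclr c _ _).2 h
  constructor
  · rintro ⟨-, -, hne, e, he, h0, hpl⟩
    have h0' := hd P ⟨e, he⟩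
    simp only at h0'
    rw [h0'] at h0
    refine ⟨finProdFinEquiv.symm ⟨e, he⟩, dgt_inj' _ _ h0, (hplay P Q ⟨e, he⟩).1 hpl, fun h => hne (by rw [h])⟩
  · rintro ⟨e, h0, hpl, hne⟩
    refine ⟨by rw [hpw]; exact (hdig _).1, by rw [hpw]; exact (hdig _).1, fun h => hne (hinj _ _ h),
      (finProdFinEquiv e).val, (finProdFinEquiv e).isLt, ?_, ?_⟩
    · rw [hd P (finProdFinEquiv e)]
      simp [h0, dgt]
    · exact (hplay P Q (finProdFinEquiv e)).2 (by simpa using hpl)

end Pool.Agent.Helper39.GS

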