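import Pool.Agent.Helper79.GS.St3

set_option autoImplicit false

namespace Pool.Agent.Helper39.GS

open Pool.Agent.Helper79.GS

theorem hRND (hCIR : StCIR) (hWK1 : StWK1) (hCNT : StCNT) (hSED : StSED) : StRND := by
  classical
  intro L E q hq hNC hPM
  obtain ⟨hcat, hrev, hspl, hsz, hsum, hmono, hpad⟩ := hWK1 (2 ^ L) E
  set Z : Set (Fin (2 ^ L) → Fin (2 ^ L) → ℤ) := {z | z ≠ 0 ∧ ∃ a, Wk E (4 * q) a a z} with hZ
  have hsub : Z ⊆ {z | ∃ a, Wk E (4 * q) a a z} := fun z hz => hz.2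
  obtain ⟨hfin, hcard⟩ := hCNT (2 ^ L) E q hNC
  have hZfin : Z.Finite := hfin.subset hsub
  have hZcard : Z.ncard ≤ (2 * 2 ^ L) ^ 4 := le_trans (Set.ncard_le_ncard hsub hfin) hcard
  have hZb : ∀ z ∈ Z, z ≠ 0 ∧ ∀ i j, |z i j| ≤ (2 * 2 ^ L : ℕ) := by
    intro z hz
    refine ⟨hz.1, fun i j => ?_⟩
    obtain ⟨a, ha⟩ := hz.2
    have h1 := (hsz (4 * q) a a z ha i j).1
    have h2 : ((4 * q : ℕ) : ℤ) ≤ ((2 * 2 ^ L : ℕ) : ℤ) := by exact_mod_cast hq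
    exact h1.trans h2
  obtain ⟨t, ht1, ht2, htZ⟩ := hSED L Z hZfin hZcard hZb
  refine ⟨t, ht1, ht2, ?_⟩
  set w : Fin (2 ^ L) → Fin (2 ^ L) → ℕ := fun i j => we L t i.val j.val with hw
  let Smin : Equiv.Perm (Fin (2 ^ L)) → Prop := fun σ => PMt E σ ∧ ∀ τ, PMt E τ → wsum w σ ≤ wsum w τ
  have hex : ∃ σ, Smin σ := by
    obtain ⟨σ₁, h₁, h₂⟩ := Set.exists_min_image {σ | PMt E σ} (wsum w) (Set.toFinite _) hPM
    exact ⟨σ₁, h₁, h₂⟩
  let E' : Fin (2 ^ L) → Fin (2 ^ L) → Prop := fun i j => ∃ σ, Smin σ ∧ σ i = j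
  have hE'E : ∀ i j, E' i j → E i j := by
    rintro i j ⟨σ, hσ, rfl⟩
    exact hσ.1 i
  have hminE' : ∀ σ, Smin σ → PMt E' σ := fun σ hσ a => ⟨σ, hσ, rfl⟩
  have hcirc : ∀ z : Fin (2 ^ L) → Fin (2 ^ L) → ℤ, (∀ i, ∑ j, z i j = 0) → (∀ j, ∑ i, z i j = 0) →
      (∀ i j, z i j ≠ 0 → E' i j) → ∑ i, ∑ j, z i j * (w i j : ℤ) = 0 := by
    intro z h1 h2 h3
    refine hCIR (2 ^ L) E w z h1 h2 fun i j hij => ?_
    obtain ⟨σ, hσ, h⟩ := h3 i j hij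
    exact ⟨σ, hσ.1, hσ.2, h⟩
  have hcol : ∀ (τ : Equiv.Perm (Fin (2 ^ L))) (j : Fin (2 ^ L)),
      ∑ i, (if τ i = j then (1 : ℤ) else 0) = 1 := by
    intro τ j
    rw [Finset.sum_eq_single (τ.symm j)]
    · simp
    · intro b _ hb
      rw [if_neg]
      rintro rfl
      exact hb (by simp)
    · intro h
      exact absurd (Finset.mem_univ _) h
  have hPM' : ∀ τ, PMt E' τ → Smin τ := by
    intro τ hτ
    obtain ⟨σ, hσ⟩ := hex
    have hτE : PMt E τ := fun a => hE'E _ _ (hτ a)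
    have key := hcirc (fun i j => (if τ i = j then (1 : ℤ) else 0) - (if σ i = j then (1 : ℤ) else 0)) ?_ ?_ ?_
    · have h3 : ∑ i, ∑ j, (((if τ i = j then (1 : ℤ) else 0) - (if σ i = j then (1 : ℤ) else 0)) * (w i j : ℤ)) =
          (wsum w τ : ℤ) - (wsum w σ : ℤ) := by
        simp [sub_mul, Finset.sum_sub_distrib, wsum]
      have e2 : wsum w τ = wsum w σ := by
        have e1 : (wsum w τ : ℤ) = (wsum w σ : ℤ) := by linarith [h3.symm.trans key]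
        exact_mod_cast e1
      exact ⟨hτE, fun ρ hρ => e2 ▸ hσ.2 ρ hρ⟩
    · intro i
      simp [Finset.sum_sub_distrib]
    · intro j
      rw [Finset.sum_sub_distrib, hcol τ j, hcol σ j, sub_self]
    · intro i j hij
      by_cases h1 : τ i = j
      · exact h1 ▸ hτ i
      · by_cases h2 : σ i = j
        · exact ⟨σ, hσ, h2⟩
        · simp [h1, h2] at hij
  refine ⟨E', hE'E, ?_, ?_, ?_⟩
  · obtain ⟨σ, hσ⟩ := hex
    exact ⟨σ, hminE' σ hσ⟩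
  · intro a z hz
    by_contra hne
    have hz4 : Wk E' (4 * q) a a z := by
      have h4 : 2 * (2 * q) = 4 * q := by ring
      rwa [h4] at hz
    obtain ⟨-, -, -, hsz', hsum', -, -⟩ := hWK1 (2 ^ L) E'
    have hzE : Wk E (4 * q) a a z := hmono E' hE'E (4 * q) a a z hz4
    have h0 := hcirc z (hsum' _ a z hz4).1 (hsum' _ a z hz4).2 (fun i j hij => (hsz' _ a a z hz4 i j).2 hij)
    exact htZ z ⟨hne, a, hzE⟩ h0
  · intro σ hσ τ hτ
    have hσm := hPM' σ hσ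
    refine ⟨hσm.2 τ hτ, fun hle => hminE' τ ⟨hτ, fun ρ hρ => hle.trans (hσm.2 ρ hρ)⟩⟩

end Pool.Agent.Helper39.GS

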